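import Mathlib
import Pool.Agent.helper60.MW.SpecB

set_option autoImplicit false

/-!
Row mw:LIH: the sets `HH` pass to the limit along the ultrafilter
-/

namespace Pool.Agent.MW

open MeasureTheory Set Pool.Agent.helper17.Worm

/-- the neighbourhood of a lattice square is closed -/
theorem LIH_closed (L : ℕ) (x y : ℤ) (W : ℝ) : IsClosed (nbh L x y W) :=
  isClosed_Icc.reProdIm isClosed_Icc

/-- the squares near a bounded point are bounded -/
theorem LIH_bound (L : ℕ) (x : ℤ) (W t r : ℝ) (B : ℕ) (h1 : (x : ℝ) / 2 ^ L - W ≤ t)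
    (h2 : t ≤ (x + 1 : ℝ) / 2 ^ L + W) (h3 : |t| ≤ r) (hB : 2 ^ L * (r + |W|) + 1 ≤ B) :
    x ∈ Finset.Icc (-(B : ℤ)) B := by
  have hp : (0 : ℝ) < 2 ^ L := by positivity
  have hW := le_abs_self W
  obtain ⟨h4, h5⟩ := abs_le.mp h3
  have e1 : (x : ℝ) ≤ 2 ^ L * (r + |W|) := by
    have : (x : ℝ) / 2 ^ L ≤ r + |W| := by linarith
    rw [div_le_iff₀ hp] at this
    linarith
  have e2 : -(2 ^ L * (r + |W|)) ≤ (x : ℝ) + 1 := by
    have : -(r + |W|) ≤ (x + 1 : ℝ) / 2 ^ L := by linarith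
    rw [le_div_iff₀ hp] at this
    linarith
  rw [Finset.mem_Icc]
  constructor
  · have : (-(B : ℝ)) ≤ (x : ℝ) := by linarith
    exact_mod_cast this
  · have : (x : ℝ) ≤ (B : ℝ) := by linarith
    exact_mod_cast this

/-- Row mw:LIH -/
theorem LIH : LIH_stmt := by
  intro D D' L K κ W z z' hD hz hH
  obtain ⟨B, hB⟩ := exists_nat_ge (2 ^ L * ((‖z'‖ + 1) + |W|) + 1)
  have hnear : ∀ᶠ n in (ul : Filter ℕ), ‖z n - z'‖ < 1 := by
    have := (tendsto_iff_norm_sub_tendsto_zero.mp hz).eventually (gt_mem_nhds one_pos)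
    exact this
  let Q : Finset (ℤ × ℤ) := Finset.Icc (-(B : ℤ)) B ×ˢ Finset.Icc (-(B : ℤ)) B
  have hfin : ((Q.powerset : Finset (Finset (ℤ × ℤ))) : Set (Finset (ℤ × ℤ))).Finite :=
    Q.powerset.finite_toSet
  have hex : ∀ᶠ n in (ul : Filter ℕ), ∃ S ∈ ((Q.powerset : Finset (Finset (ℤ × ℤ))) :
      Set (Finset (ℤ × ℤ))), S.card = K ∧ ∀ s ∈ S, 1 - 2 * κ ≤ D n s.1 s.2 ∧
        z n ∈ nbh L s.1 s.2 W := by
    filter_upwards [hnear, hH] with n hn hS
    obtain ⟨S, hcard, hS⟩ := hS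
    refine ⟨S, ?_, hcard, hS⟩
    rw [Finset.mem_coe, Finset.mem_powerset]
    intro s hs
    have hzn : ‖z n‖ ≤ ‖z'‖ + 1 := by
      have := norm_add_le (z n - z') z'
      rw [sub_add_cancel] at this
      linarith
    obtain ⟨h1, h2⟩ := (hS s hs).2
    rw [Finset.mem_product]
    exact ⟨LIH_bound L s.1 W (z n).re _ B h1.1 h1.2 ((Complex.abs_re_le_norm _).trans hzn) hB,
      LIH_bound L s.2 W (z n).im _ B h2.1 h2.2 ((Complex.abs_im_le_norm _).trans hzn) hB⟩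
  obtain ⟨S, -, hS⟩ := (ul.eventually_exists_mem_iff hfin).mp hex
  refine ⟨S, ?_, fun s hs => ⟨?_, ?_⟩⟩
  · obtain ⟨n, hn⟩ := hS.exists
    exact hn.1
  · exact ge_of_tendsto (hD s.1 s.2) (hS.mono fun n hn => (hn.2 s hs).1)
  · exact (LIH_closed L s.1 s.2 W).mem_of_tendsto hz (hS.mono fun n hn => (hn.2 s hs).2)

end Pool.Agent.MW
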